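import Mathlib
import Pool.Agent.LRG.StmtsD

/-!
# Squad LRG, row BLK (helper27): Blichfeldt's count of lattice points of bounded sup norm.
-/

set_option autoImplicit false

open MeasureTheory Module
open scoped Pointwise

namespace Pool.Agent.LRG.H27

theorem blk_finite {ι : Type} [Fintype ι] (L : Submodule ℤ (ι → ℝ)) [DiscreteTopology L]
    [IsZLattice ℝ L] (H : ℝ) : {x : ι → ℝ | x ∈ L ∧ ‖x‖ ≤ H}.Finite := by
  have h : ((Metric.closedBall (0 : ι → ℝ) H) ∩ (L : Set (ι → ℝ))).Finite := by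
    refine Metric.finite_isBounded_inter_isClosed (s := (L : Set (ι → ℝ)))
      DiscreteTopology.isDiscrete Metric.isBounded_closedBall ?_
    change IsClosed (L.toAddSubgroup : Set (ι → ℝ))
    have : DiscreteTopology L.toAddSubgroup := inferInstanceAs (DiscreteTopology L)
    exact AddSubgroup.isClosed_of_discrete
  refine h.subset ?_
  rintro x ⟨hx, hn⟩
  exact ⟨by simpa [Metric.mem_closedBall, dist_zero_right] using hn, hx⟩

theorem blk : D.BlkStmt := by
  intro ι _ L _ _ H hH
  have hfin := blk_finite L H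
  refine ⟨hfin, ?_⟩
  classical
  set B : Set (ι → ℝ) := {x : ι → ℝ | x ∈ L ∧ ‖x‖ ≤ H} with hB
  set b := Module.Free.chooseBasis ℤ L with hb
  set F : Set (ι → ℝ) := ZSpan.fundamentalDomain (b.ofZLatticeBasis ℝ) with hF
  have hFD : IsAddFundamentalDomain L F (volume : Measure (ι → ℝ)) :=
    ZLattice.isAddFundamentalDomain b volume
  have hcov : ZLattice.covolume L = (volume : Measure (ι → ℝ)).real F :=
    ZLattice.covolume_eq_measure_fundamentalDomain L volume hFD
  have hFfin : (volume : Measure (ι → ℝ)) F ≠ ⊤ :=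
    (Bornology.IsBounded.measure_lt_top (ZSpan.fundamentalDomain_isBounded _)).ne
  set Q : Set (ι → ℝ) := Set.univ.pi (fun _ => Set.Ico (0 : ℝ) H) with hQ
  have hQm : MeasurableSet Q := MeasurableSet.univ_pi (fun _ => measurableSet_Ico)
  have hQv : (volume : Measure (ι → ℝ)) Q = ENNReal.ofReal (H ^ Fintype.card ι) := by
    rw [hQ, Real.volume_pi_Ico]
    simp [ENNReal.ofReal_pow hH.le]
  have hMV : MeasurableVAdd L (ι → ℝ) := (inferInstance : MeasurableVAdd L.toAddSubgroup (ι → ℝ))
  have hVI : VAddInvariantMeasure L (ι → ℝ) (volume : Measure (ι → ℝ)) :=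
    (inferInstance : VAddInvariantMeasure L.toAddSubgroup (ι → ℝ) (volume : Measure (ι → ℝ)))
  have h1 : (volume : Measure (ι → ℝ)) Q = ∑' l : L, (volume : Measure (ι → ℝ)) ((l +ᵥ Q) ∩ F) :=
    hFD.measure_eq_tsum Q
  have hmeas : ∀ l : L, MeasurableSet (l +ᵥ Q) := fun l => hQm.const_vadd l
  have h2 : ∀ l : L, (volume : Measure (ι → ℝ)) ((l +ᵥ Q) ∩ F) =
      ∫⁻ z in F, (l +ᵥ Q).indicator (fun _ => (1 : ENNReal)) z := by
    intro l
    rw [lintegral_indicator (hmeas l), lintegral_one, Measure.restrict_apply MeasurableSet.univ,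
      Set.univ_inter, Measure.restrict_apply (hmeas l)]
  have h3 : (volume : Measure (ι → ℝ)) Q =
      ∫⁻ z in F, ∑' l : L, (l +ᵥ Q).indicator (fun _ => (1 : ENNReal)) z := by
    rw [h1, lintegral_tsum (fun l => (measurable_const.indicator (hmeas l)).aemeasurable)]
    exact tsum_congr h2
  have hpt : ∀ z : ι → ℝ, ∑' l : L, (l +ᵥ Q).indicator (fun _ => (1 : ENNReal)) z ≤
      (B.ncard : ENNReal) := by
    intro z
    by_cases hne : ∃ l₀ : L, z ∈ l₀ +ᵥ Q
    swap
    · simp only [not_exists] at hne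
      have h0 : ∀ l : L, (l +ᵥ Q).indicator (fun _ => (1 : ENNReal)) z = 0 :=
        fun l => Set.indicator_of_notMem (hne l) _
      simp [h0]
    · obtain ⟨l₀, hl₀⟩ := hne
      set T : Set L := {l : L | z ∈ l +ᵥ Q} with hT
      have key : ∀ l ∈ T, ((l : ι → ℝ) - (l₀ : ι → ℝ)) ∈ B := by
        intro l hl
        refine ⟨L.sub_mem l.2 l₀.2, ?_⟩
        obtain ⟨q, hq, hqz⟩ := hl
        obtain ⟨q₀, hq₀, hqz₀⟩ := hl₀
        have e1 : (l : ι → ℝ) + q = z := hqz
        have e2 : (l₀ : ι → ℝ) + q₀ = z := hqz₀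
        have e3 : (l : ι → ℝ) - (l₀ : ι → ℝ) = q₀ - q := by
          have : (l : ι → ℝ) + q = (l₀ : ι → ℝ) + q₀ := by rw [e1, e2]
          rw [sub_eq_sub_iff_add_eq_add, this]
          abel
        rw [e3, pi_norm_le_iff_of_nonneg hH.le]
        intro i
        have a1 := hq i (Set.mem_univ i)
        have a2 := hq₀ i (Set.mem_univ i)
        simp only [Set.mem_Ico] at a1 a2
        rw [Pi.sub_apply, Real.norm_eq_abs, abs_le]
        constructor <;> linarith [a1.1, a1.2, a2.1, a2.2]
      have hinj : Set.InjOn (fun l : L => (l : ι → ℝ) - (l₀ : ι → ℝ)) T := by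
        intro l _ l' _ h
        exact Subtype.ext (sub_left_injective h)
      have hTfin : T.Finite := Set.Finite.of_injOn key hinj hfin
      have hle : T.ncard ≤ B.ncard := Set.ncard_le_ncard_of_injOn _ key hinj hfin
      have hs : ∑' l : L, (l +ᵥ Q).indicator (fun _ => (1 : ENNReal)) z =
          ∑ l ∈ hTfin.toFinset, (l +ᵥ Q).indicator (fun _ => (1 : ENNReal)) z := by
        refine tsum_eq_sum ?_
        intro l hl
        refine Set.indicator_of_notMem ?_ _
        intro hz
        exact hl (hTfin.mem_toFinset.2 hz)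
      rw [hs, Finset.sum_congr rfl (fun l hl => Set.indicator_of_mem
        (show z ∈ l +ᵥ Q from hTfin.mem_toFinset.1 hl) _), Finset.sum_const,
        ← Set.ncard_eq_toFinset_card T hTfin]
      simpa using hle
  have h4 : ENNReal.ofReal (H ^ Fintype.card ι) ≤
      (B.ncard : ENNReal) * (volume : Measure (ι → ℝ)) F := by
    rw [← hQv, h3]
    calc ∫⁻ z in F, ∑' l : L, (l +ᵥ Q).indicator (fun _ => (1 : ENNReal)) z
        ≤ ∫⁻ _ in F, (B.ncard : ENNReal) := lintegral_mono (fun z => hpt z)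
      _ = (B.ncard : ENNReal) * (volume : Measure (ι → ℝ)) F := setLIntegral_const _ _
  have h5 := ENNReal.toReal_mono (ENNReal.mul_ne_top (ENNReal.natCast_ne_top _) hFfin) h4
  rw [ENNReal.toReal_ofReal (by positivity), ENNReal.toReal_mul, ENNReal.toReal_natCast] at h5
  rw [hcov]
  exact h5

end Pool.Agent.LRG.H27
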