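import Mathlib
import Pool.Agent.LRG.StmtsR

/-!
# Squad LRG, row DER (helper27): etale polynomial for one coordinate.
-/

set_option autoImplicit false

namespace Pool.Agent.LRG.H27

open Pool.Agent.LRG.R

theorem rob_mono {N m : ℕ} {c : Fin m → Fin N} {E : ℕ} {L L' : ℝ} {S : Finset (Fin N → ℤ)}
    (h : Rob c E L S) (hL : L' ≤ L) : Rob c E L' S := by
  intro S' hS' hc
  exact h S' hS' (hc.trans (mul_le_mul_of_nonneg_right hL (Nat.cast_nonneg _)))

theorem rob_sub {N m : ℕ} {c : Fin m → Fin N} {E : ℕ} {L L₁ L₂ : ℝ} {S A : Finset (Fin N → ℤ)}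
    (h : Rob c E L S) (h₁ : 0 ≤ L₁) (hL : L₁ * L₂ ≤ L) (hA : A ⊆ S)
    (hc : (S.card : ℝ) ≤ L₁ * (A.card : ℝ)) : Rob c E L₂ A := by
  intro S' hS' hc'
  refine h S' (hS'.trans hA) ?_
  calc (S.card : ℝ) ≤ L₁ * (A.card : ℝ) := hc
    _ ≤ L₁ * (L₂ * (S'.card : ℝ)) := mul_le_mul_of_nonneg_left hc' h₁
    _ = (L₁ * L₂) * (S'.card : ℝ) := (mul_assoc _ _ _).symm
    _ ≤ L * (S'.card : ℝ) := mul_le_mul_of_nonneg_right hL (Nat.cast_nonneg _)

theorem degB_derivative {m : ℕ} {E : ℕ} {g : Polynomial (MvPolynomial (Fin m) ℤ)}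
    (h : DegB E g) : DegB E (Polynomial.derivative g) := by
  refine ⟨?_, fun i => ?_⟩
  · exact (Polynomial.natDegree_derivative_le g).trans ((Nat.sub_le _ _).trans h.1)
  · rw [Polynomial.coeff_derivative]
    have e : ((i : MvPolynomial (Fin m) ℤ) + 1) = MvPolynomial.C ((i : ℤ) + 1) := by
      simp
    rw [e]
    refine (MvPolynomial.totalDegree_mul _ _).trans ?_
    rw [MvPolynomial.totalDegree_C, add_zero]
    exact h.2 _

theorem der_aux {N m : ℕ} (c : Fin m → Fin N) (E : ℕ) (l : Fin N) (d : ℕ) :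
    ∀ (S : Finset (Fin N → ℤ)) (g : Polynomial (MvPolynomial (Fin m) ℤ)), g.natDegree ≤ d →
      g ≠ 0 → DegB E g → (∀ x ∈ S, ev2 g (fun i => x (c i)) (x l) = 0) →
      Rob c E (2 ^ (d + 1)) S →
      ∃ S' ⊆ S, ∃ g' : Polynomial (MvPolynomial (Fin m) ℤ),
        (S.card : ℝ) ≤ 2 ^ (d + 1) * (S'.card : ℝ) ∧ Etl c E S' l g' := by
  classical
  induction d with
  | zero =>
    intro S g hd h0 hB hz hR
    exfalso
    refine hR S (Finset.Subset.refl _) ?_ ⟨g.coeff 0, ?_, hB.2 0, ?_⟩
    · have h2 : (0 : ℝ) ≤ S.card := Nat.cast_nonneg _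
      rw [zero_add, pow_one]
      linarith
    · intro h
      apply h0
      rw [Polynomial.eq_C_of_natDegree_le_zero hd, h, Polynomial.C_0]
    · intro x hx
      have h1 := hz x hx
      rw [ev2_int, Polynomial.eq_C_of_natDegree_le_zero hd, Polynomial.map_C,
        Polynomial.eval_C] at h1
      exact h1
  | succ d ih =>
    intro S g hd h0 hB hz hR
    by_cases hgd : g.natDegree ≤ d
    · obtain ⟨S', hS', g', hc, he⟩ := ih S g hgd h0 hB hz
        (rob_mono hR (pow_le_pow_right₀ one_le_two (by omega)))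
      refine ⟨S', hS', g', hc.trans ?_, he⟩
      exact mul_le_mul_of_nonneg_right (pow_le_pow_right₀ one_le_two (by omega))
        (Nat.cast_nonneg _)
    set A : Finset (Fin N → ℤ) :=
      S.filter (fun x => ev2 (Polynomial.derivative g) (fun i => x (c i)) (x l) = 0) with hA
    by_cases hcA : (S.card : ℝ) ≤ 2 * (A.card : ℝ)
    · have hg' : Polynomial.derivative g ≠ 0 := by
        intro h
        have := Polynomial.derivative_eq_zero.1 h
        omega
      have hdeg : (Polynomial.derivative g).natDegree ≤ d := by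
        have := Polynomial.natDegree_derivative_le g
        omega
      have hR' : Rob c E (2 ^ (d + 1)) A := by
        refine rob_sub hR (by norm_num : (0 : ℝ) ≤ 2) (le_of_eq ?_) (Finset.filter_subset _ _) hcA
        rw [pow_succ (2 : ℝ) (d + 1), mul_comm]
      obtain ⟨S', hS', g', hc, he⟩ := ih A (Polynomial.derivative g) hdeg hg'
        (degB_derivative hB) (fun x hx => (Finset.mem_filter.1 hx).2) hR'
      refine ⟨S', hS'.trans (Finset.filter_subset _ _), g', ?_, he⟩
      calc (S.card : ℝ) ≤ 2 * (A.card : ℝ) := hcA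
        _ ≤ 2 * (2 ^ (d + 1) * (S'.card : ℝ)) := by linarith
        _ = 2 ^ (d + 1 + 1) * (S'.card : ℝ) := by ring
    · rw [not_le] at hcA
      set S₁ : Finset (Fin N → ℤ) :=
        S.filter (fun x => ¬ ev2 (Polynomial.derivative g) (fun i => x (c i)) (x l) = 0) with hS₁
      have hsum : (A.card : ℝ) + (S₁.card : ℝ) = (S.card : ℝ) := by
        rw [hA, hS₁]
        exact_mod_cast Finset.card_filter_add_card_filter_not
          (s := S) (fun x => ev2 (Polynomial.derivative g) (fun i => x (c i)) (x l) = 0)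
      set Z : Finset (Fin N → ℤ) :=
        S₁.filter (fun x => MvPolynomial.eval (fun i => x (c i)) g.leadingCoeff = 0) with hZ
      set S₂ : Finset (Fin N → ℤ) :=
        S₁.filter (fun x => ¬ MvPolynomial.eval (fun i => x (c i)) g.leadingCoeff = 0) with hS₂
      have hsum₂ : (Z.card : ℝ) + (S₂.card : ℝ) = (S₁.card : ℝ) := by
        rw [hZ, hS₂]
        exact_mod_cast Finset.card_filter_add_card_filter_not
          (s := S₁) (fun x => MvPolynomial.eval (fun i => x (c i)) g.leadingCoeff = 0)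
      have h4 : (4 : ℝ) ≤ 2 ^ (d + 1 + 1) := by
        have : (2 : ℝ) ^ 2 ≤ 2 ^ (d + 1 + 1) := pow_le_pow_right₀ one_le_two (by omega)
        norm_num at this ⊢
        exact this
      have hZS : Z ⊆ S := (Finset.filter_subset _ _).trans (Finset.filter_subset _ _)
      have hDep : Dep c E Z := by
        refine ⟨g.leadingCoeff, Polynomial.leadingCoeff_ne_zero.2 h0, hB.2 _, ?_⟩
        intro x hx
        exact (Finset.mem_filter.1 hx).2
      have hZc : 2 * (Z.card : ℝ) < (S₁.card : ℝ) := by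
        by_contra hcon
        rw [not_lt] at hcon
        refine hR Z hZS ?_ hDep
        have h5 : (4 : ℝ) * (Z.card : ℝ) ≤ 2 ^ (d + 1 + 1) * (Z.card : ℝ) :=
          mul_le_mul_of_nonneg_right h4 (Nat.cast_nonneg _)
        linarith
      refine ⟨S₂, (Finset.filter_subset _ _).trans (Finset.filter_subset _ _), g, ?_, ?_⟩
      · have h5 : (4 : ℝ) * (S₂.card : ℝ) ≤ 2 ^ (d + 1 + 1) * (S₂.card : ℝ) :=
          mul_le_mul_of_nonneg_right h4 (Nat.cast_nonneg _)
        linarith
      · refine ⟨hB, fun x hx => ?_, fun x hx => ?_, fun x hx => ?_⟩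
        · exact hz x ((Finset.mem_filter.1 (Finset.mem_filter.1 hx).1).1)
        · exact (Finset.mem_filter.1 (Finset.mem_filter.1 hx).1).2
        · exact (Finset.mem_filter.1 hx).2

theorem der : R.DerStatement := by
  intro N m c E l S g h0 hB hz hR
  have hE : g.natDegree ≤ E := hB.1
  obtain ⟨S', hS', g', hc, he⟩ := der_aux c E l g.natDegree S g le_rfl h0 hB hz
    (rob_mono hR (pow_le_pow_right₀ one_le_two (by omega)))
  refine ⟨S', hS', g', hc.trans ?_, he⟩
  exact mul_le_mul_of_nonneg_right (pow_le_pow_right₀ one_le_two (by omega)) (Nat.cast_nonneg _)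

end Pool.Agent.LRG.H27
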