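import Mathlib
import Pool.Agent.LRG.StmtsR2

/-!
# Squad LRG, row RLF (helper27): formal relations in the language of block B.
-/

set_option autoImplicit false

namespace Pool.Agent.LRG.H27

open Polynomial Pool.Agent.LRG.R2

/-- The polynomials of all the coordinates. -/
noncomputable def rlfG {m k : ℕ} (G : Fin k → (MvPolynomial (Fin m) ℤ)[X]) (l : Fin (m + k)) :
    (MvPolynomial (Fin m) ℤ)[X] :=
  if hl : l.1 < k then G ⟨l.1, hl⟩
  else X - C (MvPolynomial.X ⟨l.1 - k, by have := l.2; omega⟩)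

theorem rlf_deg {m k E : ℕ} (G : Fin k → (MvPolynomial (Fin m) ℤ)[X])
    (hG : ∀ j, 1 ≤ (G j).natDegree ∧ (G j).natDegree ≤ E ∧
      ∀ i, ((G j).coeff i).totalDegree ≤ E) (l : Fin (m + k)) :
    R.DegB (max E 1) (rlfG G l) ∧ 1 ≤ (rlfG G l).natDegree := by
  unfold rlfG
  by_cases hl : l.1 < k
  · rw [dif_pos hl]
    obtain ⟨h1, h2, h3⟩ := hG ⟨l.1, hl⟩
    exact ⟨⟨h2.trans (le_max_left _ _), fun i => (h3 i).trans (le_max_left _ _)⟩, h1⟩
  · rw [dif_neg hl]
    refine ⟨⟨?_, fun i => ?_⟩, ?_⟩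
    · rw [natDegree_X_sub_C]
      exact le_max_right _ _
    · refine le_trans ?_ (le_max_right _ _)
      rw [coeff_sub, coeff_X, coeff_C]
      refine (MvPolynomial.totalDegree_sub _ _).trans (max_le ?_ ?_)
      · split_ifs
        · rw [MvPolynomial.totalDegree_one]
          exact zero_le_one
        · rw [MvPolynomial.totalDegree_zero]
          exact zero_le_one
      · split_ifs
        · exact (MvPolynomial.totalDegree_X (R := ℤ) _).le
        · rw [MvPolynomial.totalDegree_zero]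
          exact zero_le_one
    · rw [natDegree_X_sub_C]

theorem rlf : R2.RlfStatement := by
  intro hD m k E δ
  obtain ⟨D, hD⟩ := hD (m + k) m (max E 1) δ
  refine ⟨D, fun G hG h hh => ?_⟩
  obtain ⟨c, hc, hc'⟩ := hD (fun i => ⟨k + i, by omega⟩) (rlfG G) (rlf_deg G hG) h hh
  refine ⟨c, hc, ?_⟩
  intro O _ _ x h1 h2
  refine hc' O x ?_ ?_
  · intro l
    unfold rlfG
    by_cases hl : l.1 < k
    · rw [dif_pos hl]
      exact h1 ⟨l.1, hl⟩
    · rw [dif_neg hl]
      unfold R.ev2
      rw [eval₂_sub, eval₂_X, eval₂_C, MvPolynomial.coe_eval₂Hom, MvPolynomial.eval₂_X, sub_eq_zero]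
      congr 1
      apply Fin.ext
      simp only
      omega
  · intro l
    unfold rlfG
    by_cases hl : l.1 < k
    · rw [dif_pos hl]
      exact h2 ⟨l.1, hl⟩
    · rw [dif_neg hl, leadingCoeff_X_sub_C]
      unfold R.ev1
      rw [MvPolynomial.eval₂_one]
      exact one_ne_zero

end Pool.Agent.LRG.H27
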