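import Mathlib
import Pool.Agent.LRG.StmtsA
import Pool.Agent.LRG.StmtsZ

/-!
# Squad LRG, row SIZ (helper27): the size of the coordinates of a field with short units.
-/

set_option autoImplicit false

open Polynomial NumberField

namespace Pool.Agent.LRG.H27

theorem siz_coeff (hS : A.SplStmt) (n : ℕ) (K : Type) [Field K] [NumberField K] (θ : 𝓞 K)
    (hn : Module.finrank ℚ K = n) (hθ : IntermediateField.adjoin ℚ {(θ : K)} = ⊤) (X : ℝ)
    (hX : 1 ≤ X) (hb : ∀ σ : K →+* ℂ, ‖σ (θ : K)‖ ≤ X) (k : ℕ) :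
    |(((minpoly ℤ θ).coeff k : ℤ) : ℝ)| ≤ 2 ^ n * X ^ n := by
  classical
  obtain ⟨-, h2⟩ := hS K θ hθ ℂ
  have hmon : (minpoly ℤ θ).Monic := minpoly.monic (RingOfIntegers.isIntegral θ)
  have hdeg : (minpoly ℤ θ).natDegree ≤ n := by
    have h3 : ((minpoly ℤ θ).map (Int.castRingHom ℂ)).natDegree = (minpoly ℤ θ).natDegree :=
      hmon.natDegree_map _
    rw [← h3, h2, Polynomial.natDegree_prod_of_monic _ _ (fun σ _ => monic_X_sub_C _)]
    simp only [natDegree_X_sub_C, Finset.sum_const, smul_eq_mul, mul_one]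
    rw [Finset.card_univ, NumberField.Embeddings.card, hn]
  have hroots : ∀ z ∈ ((minpoly ℤ θ).map (Int.castRingHom ℂ)).roots, ‖z‖ ≤ X := by
    intro z hz
    have hz' := (Polynomial.mem_roots'.1 hz).2
    rw [h2, Polynomial.IsRoot.def, Polynomial.eval_prod, Finset.prod_eq_zero_iff] at hz'
    obtain ⟨σ, -, hσ⟩ := hz'
    rw [eval_sub, eval_X, eval_C, sub_eq_zero] at hσ
    rw [hσ]
    exact hb σ
  have h4 := Polynomial.coeff_bdd_of_roots_le (Int.castRingHom ℂ) hmon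
    (IsAlgClosed.splits _) hdeg hroots k
  rw [max_eq_left hX, coeff_map] at h4
  have h5 : ‖(Int.castRingHom ℂ) ((minpoly ℤ θ).coeff k)‖ =
      |(((minpoly ℤ θ).coeff k : ℤ) : ℝ)| := by
    simp
  rw [h5] at h4
  refine h4.trans ?_
  rw [mul_comm]
  refine mul_le_mul_of_nonneg_right ?_ (by positivity)
  exact_mod_cast (Nat.choose_le_two_pow n (n / 2))

theorem siz_trace (hT : A.TrcStmt) (n : ℕ) (K : Type) [Field K] [NumberField K] (v w : 𝓞 K)
    (hn : Module.finrank ℚ K = n) (X : ℝ) (hX : 1 ≤ X)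
    (hv : ∀ σ : K →+* ℂ, ‖σ (v : K)‖ ≤ X) (hw : ∀ σ : K →+* ℂ, ‖σ (w : K)‖ ≤ X) (a b : ℕ)
    (ha : a < n) (hb : b < n) :
    |((Algebra.trace ℤ (𝓞 K) (v ^ a * w ^ b) : ℤ) : ℝ)| ≤ n * X ^ (2 * n) := by
  classical
  have h1 := hT K (v ^ a * w ^ b) ℂ
  have h2 : |((Algebra.trace ℤ (𝓞 K) (v ^ a * w ^ b) : ℤ) : ℝ)| =
      ‖((Algebra.trace ℤ (𝓞 K) (v ^ a * w ^ b) : ℤ) : ℂ)‖ := by
    simp
  rw [h2, h1]
  refine (norm_sum_le _ _).trans ?_
  have h3 : ∀ σ ∈ (Finset.univ : Finset (K →+* ℂ)),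
      ‖σ (((v ^ a * w ^ b : 𝓞 K)) : K)‖ ≤ X ^ (2 * n) := by
    intro σ _
    have e1 : σ (((v ^ a * w ^ b : 𝓞 K)) : K) = σ (v : K) ^ a * σ (w : K) ^ b := by
      simp
    rw [e1, norm_mul, norm_pow, norm_pow]
    calc ‖σ (v : K)‖ ^ a * ‖σ (w : K)‖ ^ b ≤ X ^ a * X ^ b := by
          gcongr
          · exact hv σ
          · exact hw σ
      _ = X ^ (a + b) := (pow_add _ _ _).symm
      _ ≤ X ^ (2 * n) := pow_le_pow_right₀ hX (by omega)
  refine (Finset.sum_le_sum h3).trans ?_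
  rw [Finset.sum_const, Finset.card_univ, NumberField.Embeddings.card, hn, nsmul_eq_mul]

theorem siz (hG : LRG.GenStmt) (hM : A.MchStmt) (hS : A.SplStmt) (hT : A.TrcStmt) :
    SizConcl := by
  intro n r K _ _ u X hn hX hP h1n hI hB
  have hgen := hG K r u hP hI
  have hX0 : (0 : ℝ) ≤ X := zero_le_one.trans hX
  have hn1 : (1 : ℝ) ≤ n := by exact_mod_cast h1n.le
  refine ⟨fun i => (hM n K (u i) hn (hgen i)).2, ?_⟩
  rintro (⟨i, j⟩ | ⟨i, i', a, b⟩)
  · have h := siz_coeff hS n K (u i : 𝓞 K) hn (hgen i) X hX (fun σ => hB i σ) (j.1 + 1)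
    have e : pt n K u (Sum.inl (i, j)) = (minpoly ℤ ((u i : 𝓞 K))).coeff (j.1 + 1) := rfl
    rw [e]
    refine h.trans ?_
    have h2 : X ^ n ≤ X ^ (2 * n) := pow_le_pow_right₀ hX (by omega)
    calc (2 : ℝ) ^ n * X ^ n ≤ (2 ^ n * n) * X ^ n := by
          have : (2 : ℝ) ^ n ≤ 2 ^ n * n := le_mul_of_one_le_right (by positivity) hn1
          exact mul_le_mul_of_nonneg_right this (by positivity)
      _ ≤ (2 ^ n * n) * X ^ (2 * n) := mul_le_mul_of_nonneg_left h2 (by positivity)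
  · have h := siz_trace hT n K (u i : 𝓞 K) (u i' : 𝓞 K) hn X hX (fun σ => hB i σ)
      (fun σ => hB i' σ) a b a.2 b.2
    have e : pt n K u (Sum.inr (i, i', a, b)) = Algebra.trace ℤ (𝓞 K)
      ((u i : 𝓞 K) ^ (a : ℕ) * (u i' : 𝓞 K) ^ (b : ℕ)) := rfl
    rw [e]
    refine h.trans ?_
    refine mul_le_mul_of_nonneg_right ?_ (by positivity)
    have : (1 : ℝ) ≤ 2 ^ n := one_le_pow₀ one_le_two
    exact le_mul_of_one_le_left (by positivity) this

end Pool.Agent.LRG.H27
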