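import Mathlib
import Pool.Agent.LRG.StmtsB

/-!
# Squad LRG, row UNQ (helper27): uniqueness of homomorphisms of power series rings.
-/

set_option autoImplicit false

namespace Pool.Agent.LRG.H27

/-- A power series without constant term is a combination of the variables. -/
theorem exists_decomp {σ R : Type} [CommRing R] [Fintype σ] (f : MvPowerSeries σ R) :
    ∃ g : σ → MvPowerSeries σ R,
      f = MvPowerSeries.C (MvPowerSeries.constantCoeff f) + ∑ i, MvPowerSeries.X i * g i := by
  classical
  by_cases hσ : Nonempty σ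
  swap
  · have : IsEmpty σ := not_nonempty_iff.1 hσ
    refine ⟨fun _ => 0, ?_⟩
    ext α
    have hα : α = 0 := Subsingleton.elim _ _
    subst hα
    simp
  have hch : ∀ α : σ →₀ ℕ, ∃ i : σ, α ≠ 0 → Finsupp.single i 1 ≤ α := by
    intro α
    by_cases h : α = 0
    · exact ⟨Classical.choice hσ, fun h' => absurd h h'⟩
    · obtain ⟨i, hi⟩ := Finsupp.ne_iff.1 h
      refine ⟨i, fun _ => ?_⟩
      rw [Finsupp.single_le_iff]
      exact Nat.one_le_iff_ne_zero.2 (by simpa using hi)
  choose c hc using hch
  let G : σ → MvPowerSeries σ R := fun i => (fun β => if c (β + Finsupp.single i 1) = i then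
    MvPowerSeries.coeff (β + Finsupp.single i 1) f else 0 : (σ →₀ ℕ) → R)
  refine ⟨G, ?_⟩
  ext α
  rw [map_add, map_sum]
  have h1 : ∀ i : σ, MvPowerSeries.coeff α (MvPowerSeries.X i * G i) =
      if Finsupp.single i 1 ≤ α ∧ c α = i then MvPowerSeries.coeff α f else 0 := by
    intro i
    rw [MvPowerSeries.X_def, MvPowerSeries.coeff_monomial_mul]
    by_cases hi : Finsupp.single i 1 ≤ α
    · rw [if_pos hi, one_mul]
      change (if c (α - Finsupp.single i 1 + Finsupp.single i 1) = i then
        MvPowerSeries.coeff (α - Finsupp.single i 1 + Finsupp.single i 1) f else 0) = _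
      rw [tsub_add_cancel_of_le hi]
      simp [hi]
    · rw [if_neg hi]
      simp [hi]
  rw [Finset.sum_congr rfl (fun i _ => h1 i), MvPowerSeries.coeff_C]
  by_cases hα : α = 0
  · subst hα
    rw [if_pos rfl, Finset.sum_eq_zero]
    · rw [add_zero, MvPowerSeries.coeff_zero_eq_constantCoeff]
    · intro i _
      rw [if_neg]
      rintro ⟨h, -⟩
      have := Finsupp.single_le_iff.1 h
      simp at this
  · rw [if_neg hα, zero_add, Finset.sum_eq_single (c α)]
    · rw [if_pos ⟨hc α hα, rfl⟩]
    · intro i _ hi
      rw [if_neg]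
      rintro ⟨-, h⟩
      exact hi h.symm
    · intro h
      exact absurd (Finset.mem_univ _) h

theorem unq : UnqStmt := by
  classical
  intro R S _ _ σ τ _ _ u v hC hX h0
  have : Fintype σ := Fintype.ofFinite σ
  have key : ∀ n : ℕ, ∀ f : MvPowerSeries σ R, ∀ α : τ →₀ ℕ, Finsupp.degree α < n →
      MvPowerSeries.coeff α (u f - v f) = 0 := by
    intro n
    induction n with
    | zero => intro f α h; omega
    | succ n ih =>
      intro f α hα
      obtain ⟨g, hg⟩ := exists_decomp f
      have e : u f - v f = ∑ i, u (MvPowerSeries.X i) * (u (g i) - v (g i)) := by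
        conv_lhs => rw [hg]
        rw [map_add, map_add, map_sum, map_sum, hC, add_sub_add_left_eq_sub,
          ← Finset.sum_sub_distrib]
        refine Finset.sum_congr rfl fun i _ => ?_
        rw [map_mul, map_mul, hX i, mul_sub]
      rw [e, map_sum]
      refine Finset.sum_eq_zero fun i _ => ?_
      rw [MvPowerSeries.coeff_mul]
      refine Finset.sum_eq_zero fun ab hab => ?_
      rw [Finset.HasAntidiagonal.mem_antidiagonal] at hab
      by_cases ha : ab.1 = 0
      · rw [ha, MvPowerSeries.coeff_zero_eq_constantCoeff_apply, h0, zero_mul]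
      · have h2 : Finsupp.degree α = Finsupp.degree ab.1 + Finsupp.degree ab.2 := by
          rw [← hab, map_add]
        have h3 : Finsupp.degree ab.1 ≠ 0 := by
          intro h
          exact ha ((Finsupp.degree_eq_zero_iff _).1 h)
        rw [ih (g i) ab.2 (by omega), mul_zero]
  refine RingHom.ext fun f => ?_
  rw [← sub_eq_zero]
  ext α
  rw [key (Finsupp.degree α + 1) f α (Nat.lt_succ_self _)]
  simp

end Pool.Agent.LRG.H27
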